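import Pool.Agent.H69.AMU.Coxeter
import Pool.Agent.H72.AM5.StepWall

/-! # The periodic diagram of a pure positive word -/

set_option autoImplicit false

namespace Pool.Agent.H72.AM6

open Pool.Agent.H69.AMU Pool.Agent.H70.AG Pool.Agent.H72.AM5

/-- The braid of the first `r` letters. -/
def pre (n : ℕ) (w : List ℕ) : ℕ → BraidGroup n
  | 0 => 1
  | r + 1 => pre n w r * gen n (w.getD r 0)

lemma pre_eq (n : ℕ) (w : List ℕ) {r : ℕ} (hr : r ≤ w.length) :
    pre n w r = ((w.take r).map (gen n)).prod := by
  induction r with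
  | zero => simp [pre]
  | succ r ih =>
    have hr' : r < w.length := by omega
    rw [pre, ih (by omega), List.take_succ_eq_append_getElem hr', List.map_append,
      List.prod_append, List.map_singleton, List.prod_singleton, List.getD_eq_getElem?_getD,
      List.getElem?_eq_getElem hr', Option.getD_some]

lemma pre_length (n : ℕ) (w : List ℕ) : pre n w w.length = (w.map (gen n)).prod := by
  rw [pre_eq n w le_rfl, List.take_length]

lemma getD_lt {n : ℕ} {w : List ℕ} (hw : ∀ i ∈ w, i < n - 1) (hn : 2 ≤ n) (r : ℕ) :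
    w.getD r 0 < n - 1 := by
  rw [List.getD_eq_getElem?_getD]
  by_cases hr : r < w.length
  · rw [List.getElem?_eq_getElem hr, Option.getD_some]
    exact hw _ (List.getElem_mem hr)
  · rw [List.getElem?_eq_none (by omega), Option.getD_none]
    omega

/-- Pure positive words. -/
structure PW (n : ℕ) (w : List ℕ) : Prop where
  hn : 2 ≤ n
  lt : ∀ i ∈ w, i < n - 1
  ne : w ≠ []
  pure : (w.map (gen n)).prod ∈ pureBraid n

variable {n : ℕ} {w : List ℕ}

lemma PW.pos (h : PW n w) : 0 < w.length := List.length_pos_iff.mpr h.ne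

/-- The permutation of the prefix. -/
def prm (n : ℕ) (w : List ℕ) (r : ℕ) : Equiv.Perm (Fin n) := permHom n (pre n w r)

lemma prm_zero : prm n w 0 = 1 := by
  unfold prm
  rw [pre, map_one]

/-- The lower position of the crossing. -/
def lo (h : PW n w) (r : ℕ) : Fin n := ⟨w.getD r 0, by have := getD_lt h.lt h.hn r; omega⟩

/-- The upper position of the crossing. -/
def hi (h : PW n w) (r : ℕ) : Fin n := ⟨w.getD r 0 + 1, by have := getD_lt h.lt h.hn r; omega⟩

lemma prm_succ (h : PW n w) (r : ℕ) : prm n w (r + 1) = prm n w r * Equiv.swap (lo h r) (hi h r) := by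
  unfold prm
  rw [pre, map_mul, permHom_gen (getD_lt h.lt h.hn r)]
  rfl

lemma prm_length (h : PW n w) : prm n w w.length = 1 := by
  unfold prm
  rw [pre_length]
  exact h.pure

lemma prm_succ_symm (h : PW n w) (r : ℕ) (a : Fin n) :
    (prm n w (r + 1)).symm a = Equiv.swap (lo h r) (hi h r) ((prm n w r).symm a) := by
  rw [prm_succ h]
  rfl

/-- The time in the period. -/
def ind (w : List ℕ) (t : ℤ) : ℕ := (t % (w.length : ℤ)).toNat

lemma ind_lt (h : PW n w) (t : ℤ) : ind w t < w.length := by
  have h0 := h.pos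
  have h1 := Int.emod_nonneg t (show (w.length : ℤ) ≠ 0 by omega)
  have h2 := Int.emod_lt_of_pos t (show (0 : ℤ) < w.length by omega)
  unfold ind
  omega

lemma ind_of_lt {r : ℕ} (hr : r < w.length) : ind w (r : ℤ) = r := by
  unfold ind
  rw [Int.emod_eq_of_lt (by omega) (by omega)]
  simp

lemma ind_per (t : ℤ) : ind w (t + w.length) = ind w t := by
  unfold ind
  rw [Int.add_emod_right]

lemma ind_succ (h : PW n w) (t : ℤ) :
    ind w (t + 1) = ind w t + 1 ∧ ind w t + 1 < w.length ∨
      ind w (t + 1) = 0 ∧ ind w t + 1 = w.length := by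
  have h0 := h.pos
  have hT : (w.length : ℤ) ≠ 0 := by omega
  have h1 := Int.emod_nonneg t hT
  have h2 := Int.emod_lt_of_pos t (show (0 : ℤ) < w.length by omega)
  have h3 : (t + 1) % (w.length : ℤ) = (t % (w.length : ℤ) + 1) % (w.length : ℤ) := by
    rw [Int.emod_add_emod]
  unfold ind
  rw [h3]
  by_cases h4 : t % (w.length : ℤ) + 1 < w.length
  · left
    rw [Int.emod_eq_of_lt (by omega) h4]
    omega
  · right
    have h5 : t % (w.length : ℤ) + 1 = w.length := by omega
    rw [h5, Int.emod_self]
    omega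

lemma prm_ind_succ (h : PW n w) (t : ℤ) : prm n w (ind w (t + 1)) = prm n w (ind w t + 1) := by
  rcases ind_succ h t with ⟨h1, _⟩ | ⟨h1, h2⟩
  · rw [h1]
  · rw [h1, h2, prm_zero, prm_length h]

lemma lo_ne_hi (h : PW n w) (r : ℕ) : lo h r ≠ hi h r := by
  intro he
  have := congrArg Fin.val he
  simp [lo, hi] at this

/-- **The periodic diagram of a pure positive word.** -/
def ofWord (h : PW n w) : Dia n where
  T := w.length
  hT := h.pos
  pos t a := ((prm n w (ind w t)).symm a : ℕ)
  lm t := prm n w (ind w t) (hi h (ind w t))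
  rm t := prm n w (ind w t) (lo h (ind w t))
  lt t a := ((prm n w (ind w t)).symm a).2
  inj t := fun a b hab => (prm n w (ind w t)).symm.injective (Fin.ext hab)
  adj t := by
    rw [Equiv.symm_apply_apply, Equiv.symm_apply_apply]
    rfl
  step_lm t := by
    rw [prm_ind_succ h, prm_succ_symm h, Equiv.symm_apply_apply, Equiv.symm_apply_apply,
      Equiv.swap_apply_right]
  step_rm t := by
    rw [prm_ind_succ h, prm_succ_symm h, Equiv.symm_apply_apply, Equiv.symm_apply_apply,
      Equiv.swap_apply_left]
  step t a h1 h2 := by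
    rw [prm_ind_succ h, prm_succ_symm h, Equiv.swap_apply_of_ne_of_ne]
    · intro he
      apply h2
      rw [← he, Equiv.apply_symm_apply]
    · intro he
      apply h1
      rw [← he, Equiv.apply_symm_apply]
  per_pos t := by
    funext a
    rw [ind_per]
  per_lm t := by rw [ind_per]
  per_rm t := by rw [ind_per]

lemma braidUpTo_ofWord (h : PW n w) {r : ℕ} (hr : r ≤ w.length) :
    braidUpTo (ofWord h) r = pre n w r := by
  induction r with
  | zero => rfl
  | succ r ih =>
    rw [braidUpTo, ih (by omega), pre]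
    congr 2
    show (((prm n w (ind w (r : ℤ))).symm (prm n w (ind w (r : ℤ)) (lo h (ind w (r : ℤ)))) : Fin n)
      : ℕ) = w.getD r 0
    rw [Equiv.symm_apply_apply, ind_of_lt (by omega)]
    rfl

/-- The braid of the diagram of a word is the value of the word. -/
theorem dbraid_ofWord (h : PW n w) : dbraid (ofWord h) = (w.map (gen n)).prod := by
  unfold dbraid
  show braidUpTo (ofWord h) w.length = _
  rw [braidUpTo_ofWord h le_rfl, pre_length]

end Pool.Agent.H72.AM6
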