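import Pool.Agent.H72.AM6.Choose
import Pool.Agent.H72.AM6.Word
import Pool.Agent.H70.KR.Gar

/-! # The mirrored word -/

set_option autoImplicit false

namespace Pool.Agent.H72.AM6

open Pool.Agent.H69.AMU Pool.Agent.H70.AG Pool.Agent.H72.AM5

variable {n : ℕ}

/-- `D'` is the mirror image of `D`, with the strands relabelled by `Fin.rev`. -/
structure IsMirror (D D' : Dia n) : Prop where
  T : D'.T = D.T
  pos : ∀ t a, D'.pos t a.rev + D.pos t a + 1 = n
  lm : ∀ t, D'.lm t = (D.rm t).rev
  rm : ∀ t, D'.rm t = (D.lm t).rev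

lemma IsMirror.lk {D D' : Dia n} (h : IsMirror D D') (a b : Fin n) :
    D'.lk a.rev b.rev = D.lk a b := by
  rw [lk_comm D a b]
  unfold Dia.lk
  rw [h.T]
  congr 1
  apply Finset.filter_congr
  intro i _
  unfold Dia.ev
  rw [h.lm, h.rm]
  constructor
  · rintro ⟨h1, h2⟩
    exact ⟨Fin.rev_injective h2, Fin.rev_injective h1⟩
  · rintro ⟨h1, h2⟩
    exact ⟨by rw [h2], by rw [h1]⟩

lemma IsMirror.pre {D D' : Dia n} (h : IsMirror D D') {S Z : Finset (Fin n)} (hp : Pre D S Z) :
    Pre D' (Z.image Fin.rev) (S.image Fin.rev) := by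
  classical
  refine ⟨hp.hZ.image _, hp.hS.image _, ?_, ?_, ?_⟩
  · intro t y hy z hz
    rw [Finset.mem_image] at hy hz
    obtain ⟨z, hz, rfl⟩ := hz
    obtain ⟨y, hy, rfl⟩ := hy
    have h1 := hp.left t z hz y hy
    have h2 := h.pos t y
    have h3 := h.pos t z
    omega
  · intro y hy z hz
    rw [Finset.mem_image] at hy hz
    obtain ⟨z, hz, rfl⟩ := hz
    obtain ⟨y, hy, rfl⟩ := hy
    rw [h.lk, lk_comm]
    exact hp.zero z hz y hy
  · intro k hkS hkZ
    have hk : k = (k.rev).rev := (Fin.rev_rev k).symm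
    obtain ⟨F, hF, h1, h2⟩ := hp.out k.rev
      (fun hh => hkZ (Finset.mem_image.mpr ⟨_, hh, Fin.rev_rev k⟩))
      (fun hh => hkS (Finset.mem_image.mpr ⟨_, hh, Fin.rev_rev k⟩))
    refine ⟨F, hF, ?_, ?_⟩
    · intro y hy
      rw [Finset.mem_image] at hy
      obtain ⟨y, hy, rfl⟩ := hy
      rw [hk, h.lk]
      exact h2 y hy
    · intro z hz
      rw [Finset.mem_image] at hz
      obtain ⟨z, hz, rfl⟩ := hz
      rw [hk, h.lk]
      exact h1 z hz

/-- A rigid diagram with two unlinked strands whose mirror image is rigid, too, is reducible or its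
mirror image is. -/
theorem reducible_or_mirror {D D' : Dia n} (h : IsMirror D D') (hr : D.Rigid) (hr' : D'.Rigid)
    (hn : 3 ≤ n) {i j : Fin n} (hij : i ≠ j) (h0 : D.lk i j = 0) :
    Reducible (dbraid D) ∨ Reducible (dbraid D') := by
  classical
  rcases reducible_or hr hn hij h0 with h1 | ⟨S, Z, hp, hZ⟩
  · exact Or.inl h1
  · right
    refine ((h.pre hp).sit hr').reducible ?_
    rw [Finset.card_image_of_injective _ Fin.rev_injective]
    exact hZ

/-- The mirrored word. -/
def mir (n : ℕ) (w : List ℕ) : List ℕ := w.map fun i => n - 2 - i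

lemma mir_prod {w : List ℕ} (hw : ∀ i ∈ w, i < n - 1) :
    Pool.Agent.H70.KR.Delta n * (w.map (gen n)).prod
      = ((mir n w).map (gen n)).prod * Pool.Agent.H70.KR.Delta n := by
  induction w with
  | nil => simp [mir]
  | cons i w ih =>
    have h1 := ih fun j hj => hw j (List.mem_cons_of_mem _ hj)
    have h2 : i < n - 1 := hw i (by simp)
    unfold mir at h1 ⊢
    rw [List.map_cons, List.prod_cons, List.map_cons, List.map_cons, List.prod_cons, ← mul_assoc,
      Pool.Agent.H70.KR.delta_gen h2, mul_assoc, h1, mul_assoc]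

lemma mir_conj {w : List ℕ} (hw : ∀ i ∈ w, i < n - 1) :
    ((mir n w).map (gen n)).prod = Pool.Agent.H70.KR.Delta n * (w.map (gen n)).prod
      * (Pool.Agent.H70.KR.Delta n)⁻¹ := by
  rw [mir_prod hw]
  group

lemma PW.mir {w : List ℕ} (h : PW n w) : PW n (mir n w) := by
  refine ⟨h.hn, ?_, ?_, ?_⟩
  · intro i hi
    have hn := h.hn
    unfold AM6.mir at hi
    rw [List.mem_map] at hi
    obtain ⟨j, _, rfl⟩ := hi
    omega
  · unfold AM6.mir
    intro he
    exact h.ne (List.map_eq_nil_iff.mp he)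
  · rw [mir_conj h.lt]
    exact (pureBraid_normal n).conj_mem _ h.pure _

lemma mir_length (w : List ℕ) : (mir n w).length = w.length := by
  unfold mir
  rw [List.length_map]

lemma mir_getD {w : List ℕ} {r : ℕ} (hr : r < w.length) :
    (mir n w).getD r 0 = n - 2 - w.getD r 0 := by
  unfold mir
  rw [List.getD_eq_getElem?_getD, List.getD_eq_getElem?_getD, List.getElem?_map,
    List.getElem?_eq_getElem hr]
  rfl

lemma rev_lo {w : List ℕ} (h : PW n w) {r : ℕ} (hr : r < w.length) :
    (lo h r).rev = hi h.mir r := by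
  apply Fin.ext
  have h1 := getD_lt h.lt h.hn r
  rw [Fin.val_rev]
  show n - (w.getD r 0 + 1) = (AM6.mir n w).getD r 0 + 1
  rw [mir_getD hr]
  omega

lemma rev_hi {w : List ℕ} (h : PW n w) {r : ℕ} (hr : r < w.length) :
    (hi h r).rev = lo h.mir r := by
  apply Fin.ext
  have h1 := getD_lt h.lt h.hn r
  rw [Fin.val_rev]
  show n - (w.getD r 0 + 1 + 1) = (AM6.mir n w).getD r 0
  rw [mir_getD hr]
  omega

lemma prm_mir {w : List ℕ} (h : PW n w) {r : ℕ} (hr : r ≤ w.length) (a : Fin n) :
    prm n (AM6.mir n w) r a.rev = (prm n w r a).rev := by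
  induction r generalizing a with
  | zero => rw [prm_zero, prm_zero]; rfl
  | succ r ih =>
    rw [prm_succ h, prm_succ h.mir, Equiv.Perm.mul_apply, Equiv.Perm.mul_apply,
      ← rev_lo h (by omega), ← rev_hi h (by omega)]
    have hsw : Equiv.swap (hi h r).rev (lo h r).rev a.rev
        = (Equiv.swap (lo h r) (hi h r) a).rev := by
      rw [Equiv.swap_comm]
      by_cases h1 : a = lo h r
      · rw [h1, Equiv.swap_apply_left, Equiv.swap_apply_left]
      · by_cases h2 : a = hi h r
        · rw [h2, Equiv.swap_apply_right, Equiv.swap_apply_right]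
        · rw [Equiv.swap_apply_of_ne_of_ne h1 h2, Equiv.swap_apply_of_ne_of_ne
            (fun hh => h1 (Fin.rev_injective hh)) (fun hh => h2 (Fin.rev_injective hh))]
    rw [hsw, ih (by omega)]

lemma prm_mir_symm {w : List ℕ} (h : PW n w) {r : ℕ} (hr : r ≤ w.length) (a : Fin n) :
    (prm n (AM6.mir n w) r).symm a.rev = ((prm n w r).symm a).rev := by
  rw [Equiv.symm_apply_eq, prm_mir h hr, Equiv.apply_symm_apply]

lemma ind_mir (w : List ℕ) (t : ℤ) : ind (mir n w) t = ind w t := by
  unfold ind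
  rw [mir_length]

/-- The diagram of the mirrored word is the mirror image of the diagram. -/
theorem isMirror_ofWord {w : List ℕ} (h : PW n w) : IsMirror (ofWord h) (ofWord h.mir) := by
  refine ⟨mir_length w, ?_, ?_, ?_⟩
  · intro t a
    show (((prm n (AM6.mir n w) (ind (AM6.mir n w) t)).symm a.rev : Fin n) : ℕ)
      + (((prm n w (ind w t)).symm a : Fin n) : ℕ) + 1 = n
    rw [ind_mir, prm_mir_symm h (ind_lt h t).le, Fin.val_rev]
    have := ((prm n w (ind w t)).symm a).2
    omega
  · intro t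
    show prm n (AM6.mir n w) (ind (AM6.mir n w) t) (hi h.mir (ind (AM6.mir n w) t)) = _
    rw [ind_mir, ← rev_lo h (ind_lt h t), prm_mir h (ind_lt h t).le]
    rfl
  · intro t
    show prm n (AM6.mir n w) (ind (AM6.mir n w) t) (lo h.mir (ind (AM6.mir n w) t)) = _
    rw [ind_mir, ← rev_hi h (ind_lt h t), prm_mir h (ind_lt h t).le]
    rfl

end Pool.Agent.H72.AM6
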