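import Pool.Agent.H69.AMM.Artin
import Pool.Agent.H70.KR.Gar

/-! # The full twist acts on the free group by conjugation -/

set_option autoImplicit false

namespace Pool.Agent.H72.AM6

open Pool.Agent.H69.AMU Pool.Agent.H70.KR

variable {n : ℕ}

/-- `x_0 ... x_(j-1)`. -/
def RL (n j : ℕ) : FreeGroup (Fin n) := roundLoop n 0 j

lemma RL_succ (j : ℕ) : RL n (j + 1) = RL n j * fgen n j := by
  unfold RL
  rw [roundLoop, Nat.zero_add]

lemma artin_gen_RL {i j : ℕ} (hi : i < n - 1) (h : j ≤ i ∨ i + 1 < j) :
    artin n (gen n i) (RL n j) = RL n j := by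
  rw [artin_gen hi]
  rcases h with h | h
  · exact artinGen_roundLoop_out hi (Or.inr (by omega))
  · exact artinGen_roundLoop_in hi (by omega) (by omega)

lemma artin_gen_fgen {i j : ℕ} (hi : i < n - 1) (h1 : j ≠ i) (h2 : j ≠ i + 1) :
    artin n (gen n i) (fgen n j) = fgen n j := by
  rw [artin_gen hi, artinGen_fgen hi, if_neg h1, if_neg h2]

lemma desc_succ_left {G : Type*} [Group G] (s : ℕ → G) (d : ℕ) : ∀ k,
    desc s k (d + 1) = s (k + d) * desc s k d := by
  induction d with
  | zero => intro k; simp [desc]
  | succ d ih =>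
    intro k
    rw [desc, ih (k + 1), desc, mul_assoc]
    congr 2
    omega

/-- `B_m = gen (m-1) ... gen 0`. -/
lemma artin_B_zero {m : ℕ} (hm : m ≤ n - 1) :
    artin n (desc (gen n) 0 m) (fgen n 0) = RL n m * fgen n m * (RL n m)⁻¹ := by
  induction m with
  | zero => simp [desc, RL, roundLoop]
  | succ m ih =>
    rw [desc_succ_left, Nat.zero_add, map_mul, MulAut.mul_apply, ih (by omega), map_mul, map_mul,
      map_inv, artin_gen_RL (by omega) (Or.inl le_rfl), artin_gen (by omega : m < n - 1),
      artinGen_fgen (by omega : m < n - 1), if_pos rfl, RL_succ]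
    group

lemma artin_B_succ {m j : ℕ} (hm : m ≤ n - 1) (hj : j < m) :
    artin n (desc (gen n) 0 m) (fgen n (j + 1)) = fgen n j := by
  induction m with
  | zero => omega
  | succ m ih =>
    rw [desc_succ_left, Nat.zero_add, map_mul, MulAut.mul_apply]
    by_cases h : j = m
    · subst h
      have h1 : artin n (desc (gen n) 0 j) (fgen n (j + 1)) = fgen n (j + 1) := by
        have key : ∀ m' ≤ j, artin n (desc (gen n) 0 m') (fgen n (j + 1)) = fgen n (j + 1) := by
          intro m' hm'
          induction m' with
          | zero => simp [desc]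
          | succ m' ih' =>
            rw [desc_succ_left, Nat.zero_add, map_mul, MulAut.mul_apply, ih' (by omega),
              artin_gen_fgen (by omega) (by omega) (by omega)]
        exact key j le_rfl
      rw [h1, artin_gen (by omega : j < n - 1), artinGen_fgen (by omega : j < n - 1),
        if_neg (by omega), if_pos rfl]
    · rw [ih (by omega) (by omega), artin_gen_fgen (by omega) (by omega) (by omega)]

lemma artin_Dl_RL {m : ℕ} (hm : m ≤ n - 1) :
    artin n (Dl n m) (RL n (m + 1)) = RL n (m + 1) ∧
      ∀ j, m < j → artin n (Dl n m) (fgen n j) = fgen n j := by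
  have hB : ∀ m' k, m' ≤ n - 1 → m' < k → artin n (desc (gen n) 0 m') (RL n k) = RL n k := by
    intro m' k h1 h2
    induction m' with
    | zero => simp [desc]
    | succ m' ih =>
      rw [desc_succ_left, Nat.zero_add, map_mul, MulAut.mul_apply, ih (by omega) (by omega),
        artin_gen_RL (by omega) (Or.inr (by omega))]
  have hBf : ∀ m' k, m' ≤ n - 1 → m' < k → artin n (desc (gen n) 0 m') (fgen n k) = fgen n k := by
    intro m' k h1 h2
    induction m' with
    | zero => simp [desc]
    | succ m' ih =>
      rw [desc_succ_left, Nat.zero_add, map_mul, MulAut.mul_apply, ih (by omega) (by omega),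
        artin_gen_fgen (by omega) (by omega) (by omega)]
  induction m with
  | zero => exact ⟨by simp [Dl], fun j _ => by simp [Dl]⟩
  | succ m ih =>
    obtain ⟨h1, h2⟩ := ih (by omega)
    constructor
    · rw [Dl, map_mul, MulAut.mul_apply, hB (m + 1) (m + 2) hm (by omega), RL_succ, map_mul, h1,
        h2 (m + 1) (by omega)]
    · intro j hj
      rw [Dl, map_mul, MulAut.mul_apply, hBf (m + 1) j hm hj, h2 j (by omega)]

/-- The half twist on the generators. -/
lemma artin_Dl {m : ℕ} (hm : m ≤ n - 1) : ∀ j ≤ m,
    artin n (Dl n m) (fgen n j) = RL n (m - j) * fgen n (m - j) * (RL n (m - j))⁻¹ := by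
  induction m with
  | zero =>
    intro j hj
    have : j = 0 := by omega
    subst this
    simp [Dl, RL, roundLoop]
  | succ m ih =>
    intro j hj
    rw [Dl, map_mul, MulAut.mul_apply]
    cases j with
    | zero =>
      obtain ⟨h1, h2⟩ := artin_Dl_RL (n := n) (m := m) (by omega)
      rw [artin_B_zero hm, map_mul, map_mul, map_inv, h1, h2 (m + 1) (by omega)]
      rfl
    | succ j =>
      rw [artin_B_succ hm (by omega), ih (by omega) j (by omega)]
      rw [show m + 1 - (j + 1) = m - j by omega]

lemma artin_Delta_RL {k : ℕ} (hk : k ≤ n) (hn : 1 ≤ n) :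
    artin n (Delta n) (RL n k) = RL n n * (RL n (n - k))⁻¹ := by
  induction k with
  | zero => simp [RL, roundLoop]
  | succ k ih =>
    rw [RL_succ, map_mul, ih (by omega)]
    unfold Delta at *
    rw [artin_Dl le_rfl k (by omega)]
    have h1 : RL n (n - k) = RL n (n - 1 - k) * fgen n (n - 1 - k) := by
      rw [← RL_succ]
      congr 1
      omega
    rw [h1, show n - (k + 1) = n - 1 - k by omega]
    group

/-- **The full twist acts by conjugation with `x_0 ... x_(n-1)`.** -/
theorem artin_th (x : FreeGroup (Fin n)) :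
    artin n (th n) x = RL n n * x * (RL n n)⁻¹ := by
  have h : artin n (th n) = MulAut.conj (RL n n) := by
    apply mulAut_ext_fgen
    intro j
    rw [MulAut.conj_apply]
    by_cases hj : j < n
    · unfold th
      have h1 : artin n (Delta n) (fgen n j)
          = RL n (n - 1 - j) * fgen n (n - 1 - j) * (RL n (n - 1 - j))⁻¹ := by
        unfold Delta
        exact artin_Dl le_rfl j (by omega)
      have h2 : artin n (Delta n) (fgen n (n - 1 - j)) = RL n j * fgen n j * (RL n j)⁻¹ := by
        unfold Delta
        rw [artin_Dl le_rfl (n - 1 - j) (by omega), show n - 1 - (n - 1 - j) = j by omega]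
      rw [map_mul, MulAut.mul_apply, h1, map_mul, map_mul, map_inv, h2,
        artin_Delta_RL (by omega) (by omega), show n - (n - 1 - j) = j + 1 by omega, RL_succ]
      group
    · have : fgen n j = 1 := by
        rw [fgen, dif_neg hj]
      rw [this, map_one]
      group
  rw [h, MulAut.conj_apply]

lemma artin_th_zpow_isConj (z : ℤ) (x : FreeGroup (Fin n)) : IsConj (artin n (th n ^ z) x) x := by
  have h : artin n (th n) = MulAut.conj (RL n n) := by
    apply MulEquiv.ext
    intro x
    rw [artin_th, MulAut.conj_apply]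
  rw [map_zpow, h, ← map_zpow, MulAut.conj_apply]
  exact (isConj_iff.mpr ⟨RL n n ^ z, rfl⟩).symm

/-- Full twists do not matter for reducibility. -/
theorem reducible_of_th {β : BraidGroup n} {z : ℤ} (h : Reducible (th n ^ z * β)) :
    Reducible β := by
  obtain ⟨g, a, l, h1, h2, h3, h4⟩ := h
  refine ⟨g, a, l, h1, h2, h3, ?_⟩
  unfold FixesCurve at h4 ⊢
  have hc : ∀ g : BraidGroup n, g * th n ^ z = th n ^ z * g := by
    intro g
    exact ((Commute.zpow_left (show Commute (th n) g from th_central g) z).eq).symm
  have e : g⁻¹ * (th n ^ z * β) * g = th n ^ z * (g⁻¹ * β * g) := by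
    rw [← mul_assoc, hc]
    simp only [mul_assoc]
  rw [e, map_mul, MulAut.mul_apply] at h4
  exact (artin_th_zpow_isConj z _).symm.trans h4

end Pool.Agent.H72.AM6
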