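import Pool.Agent.H72.AM6.CrossLk
import Pool.Agent.H72.AM6.Mirror
import Pool.Agent.H72.AM6.Twist

/-!
# Assembly for positive words

`reducible_of_conj`: let `b` be a braid with a conjugate `a⁻¹ th^(-μ) b a` which is the value of a
positive word `w`, pure, with two unlinked strands, and let the diagrams of `w` and of the mirrored
word be rigid.  Then `b` is reducible.
-/

set_option autoImplicit false

namespace Pool.Agent.H72.AM6

open Pool.Agent.H69.AMU Pool.Agent.H61.AMU Pool.Agent.H70.AG Pool.Agent.H70.KR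

variable {n : ℕ}

/-- The trivial braid is reducible. -/
lemma reducible_one (hn : 3 ≤ n) : Reducible (1 : BraidGroup n) := by
  refine ⟨1, 0, 2, le_rfl, by omega, by omega, ?_⟩
  unfold FixesCurve
  rw [inv_one, one_mul, one_mul, map_one]
  exact IsConj.refl _

/-- **Pure positive words.** -/
theorem reducible_of_word (hn : 3 ≤ n) {w : List ℕ} (hw : ∀ i ∈ w, i < n - 1)
    (hp : (w.map (gen n)).prod ∈ pureBraid n) (hr : ∀ h : PW n w, (ofWord h).Rigid)
    (hr' : ∀ h : PW n (mir n w), (ofWord h).Rigid)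
    (hc : ∃ p q : Fin n, p < q ∧ crossing n (w.map (gen n)).prod p q = 0) :
    Reducible (w.map (gen n)).prod := by
  by_cases hne : w = []
  · subst hne
    simpa using reducible_one hn
  have h : PW n w := ⟨by omega, hw, hne, hp⟩
  obtain ⟨p, q, hpq, h0⟩ := hc
  rw [crossing_eq h] at h0
  have h0' : (ofWord h).lk p q = 0 := by omega
  rcases reducible_or_mirror (isMirror_ofWord h) (hr h) (hr' h.mir) hn (ne_of_lt hpq) h0'
    with h1 | h1
  · rwa [dbraid_ofWord] at h1
  · rw [dbraid_ofWord, mir_conj hw] at h1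
    have h2 := h1.conj (Delta n)⁻¹
    have e : (Delta n)⁻¹ * (Delta n * (w.map (gen n)).prod * (Delta n)⁻¹) * (Delta n)⁻¹⁻¹
        = (w.map (gen n)).prod := by group
    rwa [e] at h2

/-- **Braids with a positive conjugate.** -/
theorem reducible_of_conj (hn : 3 ≤ n) {b a : BraidGroup n} (hb : b ∈ pureBraid n) {μ : ℤ}
    {w : List ℕ} (hw : ∀ i ∈ w, i < n - 1)
    (hth : th n ∈ pureBraid n)
    (heq : a⁻¹ * th n ^ (-μ) * b * a = (w.map (gen n)).prod)
    (hr : ∀ h : PW n w, (ofWord h).Rigid)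
    (hr' : ∀ h : PW n (mir n w), (ofWord h).Rigid)
    (hc : ∃ p q : Fin n, p < q ∧ crossing n (a⁻¹ * th n ^ (-μ) * b * a) p q = 0) :
    Reducible b := by
  have hp : (w.map (gen n)).prod ∈ pureBraid n := by
    rw [← heq]
    have h1 : th n ^ (-μ) * b ∈ pureBraid n :=
      (pureBraid n).mul_mem ((pureBraid n).zpow_mem hth _) hb
    have h2 := (pureBraid_normal n).conj_mem _ h1 a⁻¹
    rwa [inv_inv, ← mul_assoc] at h2
  rw [heq] at hc
  have h1 := reducible_of_word hn hw hp hr hr' hc
  rw [← heq] at h1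
  have h2 := h1.conj a
  have e : a * (a⁻¹ * th n ^ (-μ) * b * a) * a⁻¹ = th n ^ (-μ) * b := by group
  rw [e] at h2
  exact reducible_of_th h2

end Pool.Agent.H72.AM6
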