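import Pool.Agent.H72.AM6.First

/-! # A rigid diagram has integral weighted Laplacians -/

set_option autoImplicit false

namespace Pool.Agent.H72.AM6

open Pool.Agent.H70.AG Pool.Agent.H72.AM3 Matrix Polynomial Filter Topology

variable {n : ℕ}

lemma tendsto_monomial (e w : Fin n → ℕ) (x : ℝ) :
    Tendsto (fun ε : ℝ => x + ε⁻¹ * (∏ i, col (fun a => (w a : ℝ)) ε i ^ (1 * e i) - 1)) (𝓝[>] 0)
      (𝓝 (x - ∑ i, (e i : ℝ) * w i)) := by
  have hc0 : ∀ i, col (fun a => (w a : ℝ)) 0 i = 1 := fun i => by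
    unfold col
    ring
  have h1 : HasDerivAt (fun ε : ℝ => ∏ i, col (fun a => (w a : ℝ)) ε i ^ (1 * e i))
      (-∑ i, (e i : ℝ) * w i) 0 := by
    have hf : ∀ i ∈ (Finset.univ : Finset (Fin n)),
        HasDerivAt (fun ε : ℝ => col (fun a => (w a : ℝ)) ε i ^ (1 * e i))
          (-((e i : ℝ) * w i)) 0 := by
      intro i _
      have h2 : HasDerivAt (fun ε : ℝ => col (fun a => (w a : ℝ)) ε i) (-(w i : ℝ)) 0 := by
        have := ((hasDerivAt_id (0 : ℝ)).mul_const (w i : ℝ)).const_sub 1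
        simpa [col] using this
      have h3 := h2.fun_pow (1 * e i)
      rw [hc0, one_pow] at h3
      have e1 : (((1 * e i : ℕ) : ℝ) * 1) * -(w i : ℝ) = -((e i : ℝ) * w i) := by
        push_cast
        ring
      rw [e1] at h3
      exact h3
    have h4 := HasDerivAt.fun_finsetProd hf
    have e2 : (∑ i, (∏ j ∈ Finset.univ.erase i, col (fun a => (w a : ℝ)) 0 j ^ (1 * e j))
        • -((e i : ℝ) * w i)) = -∑ i, (e i : ℝ) * w i := by
      rw [← Finset.sum_neg_distrib]
      apply Finset.sum_congr rfl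
      intro i _
      rw [Finset.prod_eq_one fun j _ => by rw [hc0, one_pow], one_smul]
    rw [e2] at h4
    exact h4
  have h2 := h1.tendsto_slope_zero_right
  have h3 := h2.const_add x
  rw [← sub_eq_add_neg] at h3
  refine Tendsto.congr (fun ε => ?_) h3
  rw [zero_add, Finset.prod_eq_one (f := fun i => col (fun a => (w a : ℝ)) 0 i ^ (1 * e i))
    fun j _ => by rw [hc0, one_pow], smul_eq_mul]

/-- **A rigid diagram has integral weighted Laplacians.** -/
theorem intLap_of_rigid {D : Dia n} (h : D.Rigid) : IntLap D.lk := by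
  obtain ⟨Ex, hEx⟩ := h
  have hEx1 : ∀ s : Fin n → ℝ, (∀ i, 0 ≤ s i) → (∀ i, s i ≤ 1) →
      (D.W s 0 D.T).charpoly = (Ex.map fun e => (X - C (∏ i, s i ^ (1 * e i)) : ℝ[X])).prod := by
    intro s h0 h1
    have := hEx 1 s h0 h1
    rwa [one_mul] at this
  have hcard : Multiset.card Ex = n := by
    have h1 := hEx1 (fun _ => 1) (fun _ => by norm_num) (fun _ => le_rfl)
    have h2 := congrArg Polynomial.natDegree h1
    rw [Matrix.charpoly_natDegree_eq_dim, Fintype.card_fin] at h2
    have h3 : (Ex.map fun e => (X - C (∏ i, (1 : ℝ) ^ (1 * e i)) : ℝ[X]))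
        = (Ex.map fun e => ∏ i, (1 : ℝ) ^ (1 * e i)).map (fun a => X - C a) := by
      rw [Multiset.map_map]
      rfl
    rw [h3, Polynomial.natDegree_multiset_prod_X_sub_C_eq_card, Multiset.card_map] at h2
    exact h2.symm
  intro w x hx
  set Hr := (wlap D.lk w).map (Int.castRingHom ℝ) with hHr
  rw [← Matrix.charpoly_map, ← hHr, Polynomial.IsRoot.def, Matrix.eval_charpoly] at hx
  let wr : Fin n → ℝ := fun a => (w a : ℝ)
  -- the matrices
  let N : ℝ → Matrix (Fin n) (Fin n) ℝ := fun ε =>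
    Matrix.scalar (Fin n) x + Matrix.of fun i j => ε⁻¹ * (D.W (col wr ε) 0 D.T i j - (1 : Matrix _ _ ℝ) i j)
  have hN : Tendsto N (𝓝[>] 0) (𝓝 (Matrix.scalar (Fin n) x - Hr)) := by
    refine tendsto_pi_nhds.mpr fun i => ?_
    refine tendsto_pi_nhds.mpr fun j => ?_
    have h1 := (hasDerivAt_W D wr D.T i j).tendsto_slope_zero_right
    rw [sum_dE] at h1
    simp only [zero_add, W_zero, smul_eq_mul] at h1
    have h2 := h1.const_add ((Matrix.scalar (Fin n) x) i j)
    simp only [N, Matrix.add_apply, Matrix.of_apply, Matrix.sub_apply]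
    rw [sub_eq_add_neg]
    exact h2
  have hdet : Tendsto (fun ε => (N ε).det) (𝓝[>] 0) (𝓝 (Matrix.scalar (Fin n) x - Hr).det) :=
    ((continuous_id.matrix_det).tendsto _).comp hN
  rw [hx] at hdet
  -- the product
  have hprod : Tendsto (fun ε : ℝ => (Ex.map fun e : Fin n → ℕ =>
      x + ε⁻¹ * (∏ i, col wr ε i ^ (1 * e i) - 1)).prod) (𝓝[>] 0)
      (𝓝 (Ex.map fun e : Fin n → ℕ => x - ∑ i, (e i : ℝ) * w i).prod) :=
    tendsto_multiset_prod _ fun e _ => tendsto_monomial e w x
  -- they agree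
  have hev : ∀ᶠ ε : ℝ in 𝓝[>] 0, (N ε).det
      = (Ex.map fun e : Fin n → ℕ => x + ε⁻¹ * (∏ i, col wr ε i ^ (1 * e i) - 1)).prod := by
    have hpos : (0 : ℝ) < 1 / (1 + ∑ i, (w i : ℝ)) := by positivity
    filter_upwards [self_mem_nhdsWithin, Ioo_mem_nhdsGT hpos] with ε h0 h1
    have hε : (0 : ℝ) < ε := h0
    have hcol0 : ∀ i, 0 ≤ col wr ε i := by
      intro i
      have h2 : (w i : ℝ) ≤ 1 + ∑ i, (w i : ℝ) := by
        have := Finset.single_le_sum (f := fun i => (w i : ℝ)) (fun i _ => Nat.cast_nonneg _)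
          (Finset.mem_univ i)
        linarith
      have h3 : ε * (1 + ∑ i, (w i : ℝ)) ≤ 1 := by
        have := h1.2.le
        rwa [le_div_iff₀ (by positivity)] at this
      have h4 : ε * w i ≤ ε * (1 + ∑ i, (w i : ℝ)) := mul_le_mul_of_nonneg_left h2 hε.le
      show 0 ≤ 1 - ε * (w i : ℝ)
      linarith
    have hcol1 : ∀ i, col wr ε i ≤ 1 := by
      intro i
      show 1 - ε * (w i : ℝ) ≤ 1
      have : 0 ≤ ε * (w i : ℝ) := by positivity
      linarith
    have hNe : N ε = (-ε⁻¹) • (Matrix.scalar (Fin n) (1 - ε * x) - D.W (col wr ε) 0 D.T) := by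
      ext i j
      simp only [N, Matrix.add_apply, Matrix.of_apply, Matrix.sub_apply, Matrix.smul_apply,
        Matrix.scalar_apply, smul_eq_mul, Matrix.one_apply, Matrix.diagonal_apply]
      by_cases hij : i = j
      · simp only [hij, if_true]
        field_simp
        ring
      · simp only [hij, if_false]
        ring
    rw [hNe, Matrix.det_smul, Fintype.card_fin, ← Matrix.eval_charpoly, hEx1 _ hcol0 hcol1,
      Polynomial.eval_multiset_prod, Multiset.map_map]
    have hpow : (-ε⁻¹) ^ n = (Ex.map fun _ : Fin n → ℕ => (-ε⁻¹)).prod := by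
      rw [Multiset.map_const', Multiset.prod_replicate, hcard]
    rw [hpow, ← Multiset.prod_map_mul]
    congr 1
    apply Multiset.map_congr rfl
    intro e _
    simp only [Function.comp_apply, Polynomial.eval_sub, Polynomial.eval_X, Polynomial.eval_C]
    field_simp
    ring
  have hlim := tendsto_nhds_unique (hdet.congr' hev) hprod
  rw [eq_comm, Multiset.prod_eq_zero_iff] at hlim
  rw [Multiset.mem_map] at hlim
  obtain ⟨e, _, he⟩ := hlim
  refine ⟨∑ i, (e i : ℤ) * w i, ?_⟩
  push_cast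
  linarith

end Pool.Agent.H72.AM6
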