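import Pool.Agent.H72.AM5.Order

/-! # Linking numbers of a periodic diagram -/

set_option autoImplicit false

namespace Pool.Agent.H72.AM6

open Pool.Agent.H70.AG Pool.Agent.H72.AM5

variable {n : ℕ} {D : Dia n}

/-- `1` if `a` is left of `b`. -/
def ord (D : Dia n) (a b : Fin n) (t : ℤ) : ℤ := if D.pos t a < D.pos t b then 1 else 0

lemma ord_step {a b : Fin n} (hab : a ≠ b) (t : ℤ) :
    ord D a b (t + 1) - ord D a b t
      = (if D.ev a b t then 1 else 0) - (if D.ev b a t then 1 else 0) := by
  unfold ord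
  have hadj := D.adj t
  have hl := D.step_lm t
  have hr := D.step_rm t
  by_cases h1 : D.ev a b t
  · have h2 : ¬ D.ev b a t := fun h => hab (h1.1.symm.trans h.1)
    rw [if_pos h1, if_neg h2]
    obtain ⟨e1, e2⟩ := h1
    rw [e1, e2] at hadj hl
    rw [e1, e2] at hr
    rw [if_pos (by omega), if_neg (by omega)]
  · by_cases h2 : D.ev b a t
    · rw [if_neg h1, if_pos h2]
      obtain ⟨e1, e2⟩ := h2
      rw [e1, e2] at hadj hl
      rw [e1, e2] at hr
      rw [if_neg (by omega), if_pos (by omega)]
    · rw [if_neg h1, if_neg h2]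
      have h3 : ¬ D.cr a b t := by
        rintro (h | h)
        · exact h1 h
        · exact h2 h
      have h4 := order_step h3
      by_cases h5 : D.pos t a < D.pos t b
      · rw [if_pos h5, if_pos (h4.mp h5), sub_self, sub_self]
      · rw [if_neg h5, if_neg (fun h => h5 (h4.mpr h))]

lemma lk_cast (a b : Fin n) :
    (D.lk a b : ℤ) = ∑ i ∈ Finset.range D.T, if D.ev b a (i : ℤ) then 1 else 0 := by
  unfold Dia.lk
  rw [Finset.card_filter]
  push_cast
  rfl

/-- Linking numbers are symmetric. -/
theorem lk_comm (D : Dia n) (a b : Fin n) : D.lk a b = D.lk b a := by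
  by_cases hab : a = b
  · rw [hab]
  have h1 : ∑ i ∈ Finset.range D.T, (ord D a b ((i : ℤ) + 1) - ord D a b (i : ℤ))
      = (D.lk b a : ℤ) - D.lk a b := by
    rw [Finset.sum_congr rfl fun (i : ℕ) _ => ord_step hab (i : ℤ), Finset.sum_sub_distrib,
      ← lk_cast, ← lk_cast]
  have h2 : ∑ i ∈ Finset.range D.T, (ord D a b ((i : ℤ) + 1) - ord D a b (i : ℤ))
      = ord D a b (D.T : ℤ) - ord D a b 0 := by
    have := Finset.sum_range_sub (fun i : ℕ => ord D a b (i : ℤ)) D.T
    push_cast at this
    exact this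
  have h3 : ord D a b (D.T : ℤ) = ord D a b 0 := by
    unfold ord
    have := D.per_pos 0
    rw [zero_add] at this
    rw [this]
  rw [h2, h3, sub_self] at h1
  omega

/-- Unlinked strands never cross. -/
theorem not_cr_of_lk {a b : Fin n} (h : D.lk a b = 0) (t : ℤ) : ¬ D.cr a b t := by
  have h' : D.lk b a = 0 := by rw [lk_comm, h]
  have hT : (0 : ℤ) < D.T := by exact_mod_cast D.hT
  have key : ∀ c d : Fin n, D.lk c d = 0 → ∀ i : ℕ, i < D.T → ¬ D.ev d c (i : ℤ) := by
    intro c d hcd i hi hev
    unfold Dia.lk at hcd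
    rw [Finset.card_eq_zero] at hcd
    have : i ∈ (Finset.range D.T).filter fun i : ℕ => D.ev d c (i : ℤ) := by
      rw [Finset.mem_filter, Finset.mem_range]
      exact ⟨hi, hev⟩
    rw [hcd] at this
    simp at this
  have hred : D.cr a b t ↔ D.cr a b (t % D.T) := by
    rcases le_or_gt 0 (t / D.T) with hq | hq
    · have e : t % D.T = t - ((t / D.T).toNat : ℤ) * D.T := by
        rw [Int.toNat_of_nonneg hq, Int.emod_def]
        ring
      rw [e, cr_per_sub]
    · have e : t = t % D.T - ((-(t / D.T)).toNat : ℤ) * D.T := by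
        rw [Int.toNat_of_nonneg (by omega), Int.emod_def]
        ring
      conv_lhs => rw [e]
      rw [cr_per_sub]
  rw [hred]
  have h0 := Int.emod_nonneg t (ne_of_gt hT)
  have h1 := Int.emod_lt_of_pos t hT
  obtain ⟨i, hi⟩ : ∃ i : ℕ, t % D.T = i := ⟨(t % D.T).toNat, by omega⟩
  rw [hi]
  rintro (h2 | h2)
  · exact key b a h' i (by omega) h2
  · exact key a b h i (by omega) h2

/-- Strands which never cross keep their order. -/
theorem order_of_lk {a b : Fin n} (h : D.lk a b = 0) (t u : ℤ) :
    D.pos t a < D.pos t b ↔ D.pos u a < D.pos u b := by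
  rcases le_total t u with htu | htu
  · exact order_interval htu fun v _ _ => not_cr_of_lk h v
  · exact (order_interval htu fun v _ _ => not_cr_of_lk h v).symm

end Pool.Agent.H72.AM6
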