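import Pool.Agent.H72.AM3.Main
import Pool.Agent.H72.AM5.OfRules
import Pool.Agent.H72.AM6.IntOf
import Pool.Agent.H72.AM6.Lk

/-! # The choice of `S` and `Z` -/

set_option autoImplicit false

namespace Pool.Agent.H72.AM6

open Pool.Agent.H69.AMU Pool.Agent.H70.AG Pool.Agent.H72.AM5 Pool.Agent.H72.AM3

variable {n : ℕ} {D : Dia n}

/-- The data of step (III) without the rigidity: `A = S ∪ Z`. -/
structure Pre (D : Dia n) (S Z : Finset (Fin n)) : Prop where
  hS : S.Nonempty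
  hZ : Z.Nonempty
  left : ∀ t, ∀ y ∈ S, ∀ z ∈ Z, D.pos t y < D.pos t z
  zero : ∀ y ∈ S, ∀ z ∈ Z, D.lk y z = 0
  out : ∀ k, k ∉ S → k ∉ Z → ∃ F : ℕ, 0 < F ∧ (∀ y ∈ S, D.lk k y = F) ∧ ∀ z ∈ Z, D.lk k z = F

lemma Pre.sit {S Z : Finset (Fin n)} (h : Pre D S Z) (hr : D.Rigid) : Sit D S Z := by
  refine ⟨hr, h.hZ, h.left, ?_, ?_⟩
  · intro y hy z hz k hkS hkZ
    obtain ⟨F, hF, h1, h2⟩ := h.out k hkS hkZ
    exact ⟨fun t => h.left t y hy z hz, h.zero y hy z hz, by rw [h1 y hy, h2 z hz],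
      by rw [h1 y hy]; exact hF⟩
  · intro y hy y' hy' hne k hkS hkZ
    obtain ⟨F, hF, h1, h2⟩ := h.out k hkS hkZ
    by_cases h0 : D.lk y y' = 0
    · right
      have hpos : D.pos 0 y ≠ D.pos 0 y' := fun he => hne (D.inj 0 he)
      rcases lt_or_gt_of_ne hpos with hlt | hgt
      · left
        exact ⟨fun t => (order_of_lk h0 0 t).mp hlt, h0, by rw [h1 y hy, h1 y' hy'],
          by rw [h1 y hy]; exact hF⟩
      · right
        have h0' : D.lk y' y = 0 := by rw [lk_comm, h0]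
        exact ⟨fun t => (order_of_lk h0' 0 t).mp hgt, h0', by rw [h1 y hy, h1 y' hy'],
          by rw [h1 y' hy']; exact hF⟩
    · left
      exact Nat.pos_of_ne_zero h0

/-- **The choice of `S` and `Z`** for a rigid diagram with two unlinked strands. -/
theorem exists_pre (hr : D.Rigid) {i j : Fin n} (hij : i ≠ j) (h0 : D.lk i j = 0) :
    ∃ S Z : Finset (Fin n), Pre D S Z := by
  classical
  have hs : ∀ a b, D.lk a b = D.lk b a := lk_comm D
  obtain ⟨A, hiA, hjA, ⟨F, hF⟩, hblk⟩ := structure_of_intLap (intLap_of_rigid hr) hs hij h0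
  -- the rightmost strand of `A`
  obtain ⟨z₀, hz₀, hmax⟩ := Finset.exists_max_image A (D.pos 0) ⟨i, hiA⟩
  set Z := block D.lk A z₀ with hZdef
  have hZA : Z ⊆ A := block_subset _ _ _
  have hz₀Z : z₀ ∈ Z := mem_block_self _ _ hz₀
  have hzero : ∀ y ∈ A \ Z, ∀ z ∈ Z, D.lk y z = 0 := by
    intro y hy z hz
    rw [Finset.mem_sdiff] at hy
    apply lk_eq_zero_of_block_ne hs hy.1 (hZA hz)
    intro he
    apply hy.2
    have h1 : block D.lk A z = Z := block_eq_of_mem hs hz₀ hz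
    rw [← h1, ← he]
    exact mem_block_self _ _ hy.1
  refine ⟨A \ Z, Z, ?_, ⟨z₀, hz₀Z⟩, ?_, hzero, ?_⟩
  · rw [Finset.nonempty_iff_ne_empty]
    intro he
    rw [Finset.sdiff_eq_empty_iff_subset] at he
    exact hblk z₀ hz₀ (Finset.Subset.antisymm hZA he)
  · intro t y hy z hz
    have hyA : y ∈ A := (Finset.mem_sdiff.mp hy).1
    have hyZ : y ∉ Z := (Finset.mem_sdiff.mp hy).2
    have key : ∀ z ∈ Z, ∀ t, D.pos t y < D.pos t z := by
      refine block_induction (P := fun z => ∀ t, D.pos t y < D.pos t z) hs hz₀ hz₀Z ?_ ?_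
      · intro t
        rw [order_of_lk (hzero y hy z₀ hz₀Z) t 0]
        have h1 := hmax y hyA
        have h2 : D.pos 0 y ≠ D.pos 0 z₀ := fun he => hyZ (D.inj 0 he ▸ hz₀Z)
        omega
      · intro x hx x' hx' hPx hl t
        obtain ⟨u, _, hcr⟩ := exists_cr_lt hl 0
        rw [order_of_lk (hzero y hy x' hx') t u]
        have h1 := hPx u
        have h2 : D.pos u y ≠ D.pos u x' := fun he => hyZ (D.inj u he ▸ hx')
        rcases cr_adj hcr with h3 | h3 <;> omega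
    exact key z hz t
  · intro k hkS hkZ
    have hkA : k ∉ A := by
      intro hk
      exact hkS (Finset.mem_sdiff.mpr ⟨hk, hkZ⟩)
    exact ⟨F k, (hF k hkA).1, fun y hy => (hF k hkA).2 y (Finset.mem_sdiff.mp hy).1,
      fun z hz => (hF k hkA).2 z (hZA hz)⟩

/-- A rigid diagram with two unlinked strands is reducible, or `S` has exactly one strand and `Z`
at least two. -/
theorem reducible_or (hr : D.Rigid) (hn : 3 ≤ n) {i j : Fin n} (hij : i ≠ j)
    (h0 : D.lk i j = 0) :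
    Reducible (dbraid D) ∨ ∃ S Z : Finset (Fin n), Pre D S Z ∧ 2 ≤ Z.card := by
  obtain ⟨S, Z, h⟩ := exists_pre hr hij h0
  have h1 : 0 < S.card := Finset.card_pos.mpr h.hS
  have h2 : 0 < Z.card := Finset.card_pos.mpr h.hZ
  by_cases hS : 2 ≤ S.card
  · exact Or.inl ((h.sit hr).reducible hS)
  · by_cases hZ : 2 ≤ Z.card
    · exact Or.inr ⟨S, Z, h, hZ⟩
    · exact Or.inl ((h.sit hr).reducible' (by omega) (by omega) hn)

end Pool.Agent.H72.AM6
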