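import Pool.Agent.H61.AMU.Cross
import Pool.Agent.H72.AM6.Lk
import Pool.Agent.H72.AM6.Word

/-! # Crossing numbers and linking numbers of a pure positive word -/

set_option autoImplicit false

namespace Pool.Agent.H72.AM6

open Pool.Agent.H69.AMU Pool.Agent.H61.AMU Pool.Agent.H70.AG Pool.Agent.H72.AM5

variable {n : ℕ} {w : List ℕ}

lemma pairMat_eq {x y a b : Fin n} :
    pairMat n x y a b = (if a = x ∧ b = y then 1 else 0) + if a = y ∧ b = x then 1 else 0 := by
  unfold pairMat
  rw [Matrix.add_apply, Matrix.single_apply, Matrix.single_apply]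
  congr 1
  · by_cases h : a = x ∧ b = y
    · rw [if_pos h, if_pos ⟨h.1.symm, h.2.symm⟩]
    · rw [if_neg h, if_neg (fun h' => h ⟨h'.1.symm, h'.2.symm⟩)]
  · by_cases h : a = y ∧ b = x
    · rw [if_pos h, if_pos ⟨h.1.symm, h.2.symm⟩]
    · rw [if_neg h, if_neg (fun h' => h ⟨h'.1.symm, h'.2.symm⟩)]

lemma crossing_pre (h : PW n w) (p q : Fin n) (r : ℕ) :
    crossing n (pre n w r) p q = ∑ t ∈ Finset.range r,
      ((if (prm n w t).symm p = lo h t ∧ (prm n w t).symm q = hi h t then 1 else 0)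
        + if (prm n w t).symm p = hi h t ∧ (prm n w t).symm q = lo h t then 1 else 0) := by
  induction r with
  | zero =>
    rw [pre, crossing_one]
    rfl
  | succ r ih =>
    rw [pre, crossing_mul, Matrix.add_apply, ih, Finset.sum_range_succ,
      crossing_gen n (getD_lt h.lt h.hn r), Matrix.submatrix_apply, pairMat_eq]
    rfl

lemma ev_iff (h : PW n w) {t : ℕ} (ht : t < w.length) (p q : Fin n) :
    (ofWord h).ev q p (t : ℤ) ↔ (prm n w t).symm p = lo h t ∧ (prm n w t).symm q = hi h t := by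
  unfold Dia.ev
  show prm n w (ind w (t : ℤ)) (hi h (ind w (t : ℤ))) = q ∧
    prm n w (ind w (t : ℤ)) (lo h (ind w (t : ℤ))) = p ↔ _
  rw [ind_of_lt ht]
  constructor
  · rintro ⟨h1, h2⟩
    rw [← h1, ← h2, Equiv.symm_apply_apply, Equiv.symm_apply_apply]
    exact ⟨rfl, rfl⟩
  · rintro ⟨h1, h2⟩
    rw [← h1, ← h2, Equiv.apply_symm_apply, Equiv.apply_symm_apply]
    exact ⟨rfl, rfl⟩

/-- The crossing number of two strands is twice the linking number. -/
theorem crossing_eq (h : PW n w) (p q : Fin n) :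
    crossing n ((w.map (gen n)).prod) p q = 2 * ((ofWord h).lk p q : ℤ) := by
  have h1 := lk_cast (D := ofWord h) p q
  have h2 := lk_cast (D := ofWord h) q p
  rw [lk_comm (ofWord h) q p] at h2
  have hT : (ofWord h).T = w.length := rfl
  rw [hT] at h1 h2
  rw [← pre_length, crossing_pre h, Finset.sum_add_distrib, two_mul]
  congr 1
  · rw [h1]
    apply Finset.sum_congr rfl
    intro t ht
    rw [Finset.mem_range] at ht
    by_cases hc : (ofWord h).ev q p (t : ℤ)
    · rw [if_pos hc, if_pos ((ev_iff h ht p q).mp hc)]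
    · rw [if_neg hc, if_neg (fun hh => hc ((ev_iff h ht p q).mpr hh))]
  · rw [h2]
    apply Finset.sum_congr rfl
    intro t ht
    rw [Finset.mem_range] at ht
    by_cases hc : (ofWord h).ev p q (t : ℤ)
    · have := (ev_iff h ht q p).mp hc
      rw [if_pos hc, if_pos ⟨this.2, this.1⟩]
    · rw [if_neg hc, if_neg (fun hh => hc ((ev_iff h ht q p).mpr ⟨hh.2, hh.1⟩))]

end Pool.Agent.H72.AM6
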