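import Pool.Agent.H70.AG.Def
import Pool.Agent.H72.AM3.Defs

/-! # First order at `s = 1`: a rigid diagram has integral weighted Laplacians -/

set_option autoImplicit false

namespace Pool.Agent.H72.AM6

open Pool.Agent.H70.AG Pool.Agent.H72.AM3 Matrix Polynomial Filter Topology

variable {n : ℕ} (D : Dia n) (w : Fin n → ℝ)

/-- The colours `1 - ε w`. -/
def col (ε : ℝ) (i : Fin n) : ℝ := 1 - ε * w i

/-- The derivative of the step matrix. -/
noncomputable def dE (t : ℤ) : Matrix (Fin n) (Fin n) ℝ := fun i j =>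
  if i = D.rm t then (if j = D.rm t then -w (D.lm t) else 0) + (if j = D.lm t then w (D.lm t) else 0)
  else 0

lemma E_zero (t : ℤ) : D.E (col w 0) t = 1 := by
  ext i j
  unfold Dia.E col
  rw [Matrix.one_apply]
  by_cases h1 : i = D.rm t
  · rw [if_pos h1, h1]
    by_cases h2 : j = D.rm t
    · rw [if_pos h2, if_pos h2.symm]
      simp
    · have h3 : ¬ D.rm t = j := fun h => h2 h.symm
      simp [h2, h3]
  · rw [if_neg h1]

lemma W_zero (t : ℤ) (m : ℕ) : D.W (col w 0) t m = 1 := by
  induction m with
  | zero => rfl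
  | succ m ih => rw [Dia.W, ih, E_zero, one_mul]

lemma hasDerivAt_E (t : ℤ) (i j : Fin n) :
    HasDerivAt (fun ε : ℝ => D.E (col w ε) t i j) (dE D w t i j) 0 := by
  unfold Dia.E dE col
  have h1 : HasDerivAt (fun ε : ℝ => 1 - ε * w (D.lm t)) (-w (D.lm t)) 0 := by
    have := ((hasDerivAt_id (0 : ℝ)).mul_const (w (D.lm t))).const_sub 1
    simpa using this
  have h2 : HasDerivAt (fun ε : ℝ => 1 - (1 - ε * w (D.lm t))) (w (D.lm t)) 0 := by
    have := h1.const_sub 1
    simpa using this
  by_cases hi : i = D.rm t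
  · simp only [if_pos hi]
    apply HasDerivAt.add
    · by_cases hj : j = D.rm t
      · simp only [if_pos hj]
        exact h1
      · simp only [if_neg hj]
        exact hasDerivAt_const _ _
    · by_cases hj : j = D.lm t
      · simp only [if_pos hj]
        exact h2
      · simp only [if_neg hj]
        exact hasDerivAt_const _ _
  · simp only [if_neg hi]
    exact hasDerivAt_const _ _

lemma hasDerivAt_W (m : ℕ) (i j : Fin n) :
    HasDerivAt (fun ε : ℝ => D.W (col w ε) 0 m i j)
      (∑ t ∈ Finset.range m, dE D w (t : ℤ) i j) 0 := by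
  induction m generalizing i j with
  | zero =>
    simp only [Dia.W, Finset.range_zero, Finset.sum_empty]
    exact hasDerivAt_const _ _
  | succ m ih =>
    simp only [Dia.W, Matrix.mul_apply, zero_add]
    have h1 : HasDerivAt (fun ε : ℝ => ∑ k, D.E (col w ε) (m : ℤ) i k * D.W (col w ε) 0 m k j)
        (∑ k, (dE D w (m : ℤ) i k * D.W (col w 0) 0 m k j
          + D.E (col w 0) (m : ℤ) i k * ∑ t ∈ Finset.range m, dE D w (t : ℤ) k j)) 0 := by
      apply HasDerivAt.fun_sum
      intro k _
      exact (hasDerivAt_E D w (m : ℤ) i k).mul (ih k j)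
    convert h1 using 1
    rw [Finset.sum_add_distrib, W_zero, E_zero, Finset.sum_range_succ, add_comm]
    congr 1
    · simp [Matrix.one_apply]
    · simp [Matrix.one_apply]

/-- Linking numbers from the sum of the derivatives. -/
lemma sum_dE (w : Fin n → ℕ) (i j : Fin n) :
    ∑ t ∈ Finset.range D.T, dE D (fun a => (w a : ℝ)) (t : ℤ) i j
      = - (((wlap D.lk w).map (Int.castRingHom ℝ)) i j) := by
  have hlk : ∀ a b : Fin n, (D.lk a b : ℝ)
      = ∑ t ∈ Finset.range D.T, if D.lm (t : ℤ) = b ∧ D.rm (t : ℤ) = a then (1 : ℝ) else 0 := by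
    intro a b
    unfold Dia.lk Dia.ev
    rw [Finset.card_filter]
    push_cast
    rfl
  have hent : ∀ t : ℤ, dE D (fun a => (w a : ℝ)) t i j
      = (if D.lm t = j ∧ D.rm t = i then (1 : ℝ) else 0) * w j
        - (if i = j then ∑ k, (if D.lm t = k ∧ D.rm t = i then (1 : ℝ) else 0) * w k else 0) := by
    intro t
    unfold dE
    by_cases hi : i = D.rm t
    · have hsum : ∑ k, (if D.lm t = k ∧ D.rm t = i then (1 : ℝ) else 0) * w k = w (D.lm t) := by
        rw [Finset.sum_eq_single (D.lm t)]
        · rw [if_pos ⟨rfl, hi.symm⟩, one_mul]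
        · intro k _ hk
          rw [if_neg (fun h => hk h.1.symm), zero_mul]
        · simp
      rw [hsum, if_pos hi]
      by_cases hj : j = D.lm t
      · have hij : i ≠ j := by
          intro h
          have := D.adj t
          rw [← hi, ← hj, h] at this
          omega
        have h1 : ¬ j = D.rm t := fun h => hij (hi.trans h.symm)
        rw [if_neg h1, if_pos hj, if_pos ⟨hj.symm, hi.symm⟩, if_neg hij, hj]
        ring
      · have h2 : ¬ (D.lm t = j ∧ D.rm t = i) := fun h => hj h.1.symm
        rw [if_neg hj, if_neg h2]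
        by_cases hij : i = j
        · rw [if_pos (hij.symm.trans hi), if_pos hij]
          ring
        · have h1 : ¬ j = D.rm t := fun h => hij (hi.trans h.symm)
          rw [if_neg h1, if_neg hij]
          ring
    · have h1 : ∀ k, ¬ (D.lm t = k ∧ D.rm t = i) := fun k h => hi h.2.symm
      rw [if_neg hi, if_neg (h1 j)]
      have hsum : ∑ k, (if D.lm t = k ∧ D.rm t = i then (1 : ℝ) else 0) * w k = 0 := by
        apply Finset.sum_eq_zero
        intro k _
        rw [if_neg (h1 k), zero_mul]
      rw [hsum]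
      simp
  rw [Finset.sum_congr rfl fun (t : ℕ) _ => hent (t : ℤ), Finset.sum_sub_distrib, ← Finset.sum_mul,
    ← hlk i j, Matrix.map_apply, wlap, Matrix.sub_apply, Matrix.of_apply]
  by_cases hij : i = j
  · subst hij
    rw [Matrix.diagonal_apply_eq]
    simp only [if_true]
    rw [Finset.sum_comm]
    have : ∀ k, ∑ t ∈ Finset.range D.T,
        (if D.lm (t : ℤ) = k ∧ D.rm (t : ℤ) = i then (1 : ℝ) else 0) * w k = D.lk i k * w k := by
      intro k
      rw [← Finset.sum_mul, ← hlk i k]
    rw [Finset.sum_congr rfl fun k _ => this k]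
    push_cast
    simp
  · rw [Matrix.diagonal_apply_ne _ hij]
    simp only [if_neg hij, Finset.sum_const_zero]
    push_cast
    simp

end Pool.Agent.H72.AM6
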